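import Pool.Agent.Q72.EL.Stm
import Pool.Agent.Q151.EG.Ends

/-! Project EL (helper72), JOB ENDS2: existence of ends with independent weights. -/

set_option autoImplicit false

namespace Pool.Agent.Q2.EL

open Pool.Agent.Q72.EL

section mon

variable {c : ℕ} {E : Type} [Field E]

/-- Laurent monomials -/
def mon (Y : Fin c → E) (α : Fin c → ℤ) : E := ∏ j, Y j ^ α j

theorem mon_add {Y : Fin c → E} (hY : ∀ j, Y j ≠ 0) (α β : Fin c → ℤ) :
    mon Y (α + β) = mon Y α * mon Y β := by
  unfold mon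
  rw [← Finset.prod_mul_distrib]
  refine Finset.prod_congr rfl fun j _ => ?_
  rw [Pi.add_apply, zpow_add₀ (hY j)]

theorem mon_ne {Y : Fin c → E} (hY : ∀ j, Y j ≠ 0) (α : Fin c → ℤ) : mon Y α ≠ 0 :=
  Finset.prod_ne_zero_iff.mpr fun j _ => zpow_ne_zero _ (hY j)

theorem mon_zero (Y : Fin c → E) : mon Y 0 = 1 := by
  unfold mon
  simp

theorem mon_sub {Y : Fin c → E} (hY : ∀ j, Y j ≠ 0) (α β : Fin c → ℤ) :
    mon Y (α - β) = mon Y α / mon Y β := by
  rw [eq_div_iff (mon_ne hY β), ← mon_add hY, sub_add_cancel]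

theorem mon_zsmul (Y : Fin c → E) (α : Fin c → ℤ) (m : ℤ) : mon Y (m • α) = mon Y α ^ m := by
  unfold mon
  rw [← Finset.prod_zpow]
  refine Finset.prod_congr rfl fun j _ => ?_
  rw [Pi.smul_apply, smul_eq_mul, mul_comm, zpow_mul]

variable [Algebra ℂ E]

theorem mon_indep (K : IntermediateField ℂ E) {Y : Fin c → E} (h : AlgebraicIndependent K Y) :
    LinearIndependent K (mon Y) := by
  classical
  have hY : ∀ j, Y j ≠ 0 := fun j => h.ne_zero j
  rw [linearIndependent_iff']
  intro s g hg α hα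
  obtain ⟨N, hN⟩ : ∃ N : ℕ, ∀ β ∈ s, ∀ j, 0 ≤ β j + N := by
    refine ⟨∑ β ∈ s, ∑ j, (β j).natAbs, fun β hβ j => ?_⟩
    have h1 : (β j).natAbs ≤ ∑ j, (β j).natAbs :=
      Finset.single_le_sum (f := fun j => (β j).natAbs) (fun _ _ => Nat.zero_le _)
        (Finset.mem_univ j)
    have h2 : ∑ j, (β j).natAbs ≤ ∑ β ∈ s, ∑ j, (β j).natAbs :=
      Finset.single_le_sum (f := fun β : Fin c → ℤ => ∑ j, (β j).natAbs)
        (fun _ _ => Nat.zero_le _) hβ
    have h3 := h1.trans h2
    zify at h3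
    have h4 := neg_abs_le (β j)
    push_cast
    linarith
  let e : (Fin c → ℤ) → (Fin c →₀ ℕ) := fun β =>
    Finsupp.equivFunOnFinite.symm fun j => (β j + N).toNat
  have he : ∀ β ∈ s, ∀ j, ((e β j : ℕ) : ℤ) = β j + N := fun β hβ j =>
    Int.toNat_of_nonneg (hN β hβ j)
  have hinj : ∀ β ∈ s, ∀ γ ∈ s, e β = e γ → β = γ := by
    intro β hβ γ hγ hh
    funext j
    have h1 := he β hβ j
    rw [hh, he γ hγ j] at h1
    linarith
  have hp : MvPolynomial.aeval Y (∑ β ∈ s, MvPolynomial.monomial (e β) (g β)) = 0 := by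
    have h1 : ∀ β ∈ s, MvPolynomial.aeval Y (MvPolynomial.monomial (e β) (g β)) =
        (∏ j, Y j ^ N) * (g β • mon Y β) := by
      intro β hβ
      rw [MvPolynomial.aeval_monomial, Algebra.smul_def, mul_left_comm]
      congr 1
      rw [Finsupp.prod_fintype _ _ (fun _ => pow_zero _)]
      unfold mon
      rw [← Finset.prod_mul_distrib]
      refine Finset.prod_congr rfl fun j _ => ?_
      rw [← zpow_natCast, he β hβ j, zpow_add₀ (hY j), zpow_natCast, mul_comm]
    rw [map_sum, Finset.sum_congr rfl h1, ← Finset.mul_sum, hg, mul_zero]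
  have h0 := (algebraicIndependent_iff.mp h) _ hp
  have h1 := congrArg (MvPolynomial.coeff (e α)) h0
  rw [MvPolynomial.coeff_sum, Finset.sum_eq_single α] at h1
  · rwa [MvPolynomial.coeff_monomial, if_pos rfl, MvPolynomial.coeff_zero] at h1
  · intro β hβ hne
    rw [MvPolynomial.coeff_monomial, if_neg fun hh => hne (hinj β hβ α hα hh)]
  · exact fun hh => absurd hα hh

/-- a valuation ring over `K` in which the monomials of positive weight are in the maximal ideal -/
theorem exists_val (K : IntermediateField ℂ E) {Y : Fin c → E} (h : AlgebraicIndependent K Y)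
    (lam : Fin c → ℝ) : ∃ O : ValuationSubring E, (∀ k ∈ K, k ∈ O) ∧
      ∀ α : Fin c → ℤ, 0 < ∑ j, (α j : ℝ) * lam j → O.valuation (mon Y α) < 1 := by
  classical
  have hY : ∀ j, Y j ≠ 0 := fun j => h.ne_zero j
  let S : Set (Fin c → ℤ) := {α | 0 < ∑ j, (α j : ℝ) * lam j}
  obtain ⟨M, hM⟩ : ∃ M : Submodule K E, M = Submodule.span K (mon Y '' S) := ⟨_, rfl⟩
  have h1 : (1 : E) ∉ M := by
    have h2 := (mon_indep K h).notMem_span_image (s := S) (x := 0) (by
      show ¬ (0 : ℝ) < ∑ j, (((0 : Fin c → ℤ) j : ℤ) : ℝ) * lam j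
      simp)
    rwa [mon_zero, ← hM] at h2
  have hmul : ∀ a ∈ M, ∀ b ∈ M, a * b ∈ M := by
    have h3 : M * M ≤ M := by
      rw [hM, Submodule.span_mul_span]
      refine Submodule.span_mono ?_
      rintro _ ⟨_, ⟨α, hα, rfl⟩, _, ⟨β, hβ, rfl⟩, rfl⟩
      refine ⟨α + β, ?_, mon_add hY α β⟩
      show 0 < ∑ j, (((α + β) j : ℤ) : ℝ) * lam j
      have h4 : ∑ j, (((α + β) j : ℤ) : ℝ) * lam j =
          ∑ j, (α j : ℝ) * lam j + ∑ j, (β j : ℝ) * lam j := by
        rw [← Finset.sum_add_distrib]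
        refine Finset.sum_congr rfl fun j _ => ?_
        rw [Pi.add_apply]
        push_cast
        ring
      rw [h4]
      exact add_pos hα hβ
    exact fun a ha b hb => h3 (Submodule.mul_mem_mul ha hb)
  have hsm : ∀ (k : K) (a : E), a ∈ M → (k : E) * a ∈ M := by
    intro k a ha
    have := M.smul_mem k ha
    rwa [Algebra.smul_def] at this
  let A : Subring E :=
    { carrier := {a | ∃ k : K, a - (k : E) ∈ M}
      mul_mem' := by
        rintro a b ⟨k, hk⟩ ⟨l, hl⟩
        refine ⟨k * l, ?_⟩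
        have e1 : a * b - ((k * l : K) : E) =
            (k : E) * (b - l) + (l : E) * (a - k) + (a - k) * (b - l) := by
          push_cast
          ring
        rw [e1]
        exact M.add_mem (M.add_mem (hsm k _ hl) (hsm l _ hk)) (hmul _ hk _ hl)
      one_mem' := ⟨1, by simp⟩
      add_mem' := by
        rintro a b ⟨k, hk⟩ ⟨l, hl⟩
        refine ⟨k + l, ?_⟩
        have e1 : a + b - ((k + l : K) : E) = (a - k) + (b - l) := by
          push_cast
          ring
        rw [e1]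
        exact M.add_mem hk hl
      zero_mem' := ⟨0, by simp⟩
      neg_mem' := by
        rintro a ⟨k, hk⟩
        refine ⟨-k, ?_⟩
        have e1 : -a - ((-k : K) : E) = -(a - k) := by
          push_cast
          ring
        rw [e1]
        exact M.neg_mem hk }
  let I : Ideal A :=
    { carrier := {a | (a : E) ∈ M}
      add_mem' := fun {a b} ha hb => M.add_mem ha hb
      zero_mem' := M.zero_mem
      smul_mem' := by
        rintro ⟨a, k, hk⟩ ⟨b, hb'⟩ hb
        show a * b ∈ M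
        have e1 : a * b = (k : E) * b + (a - k) * b := by ring
        rw [e1]
        exact M.add_mem (hsm k _ hb) (hmul _ hk _ hb) }
  have hI : I ≠ ⊤ := by
    intro hh
    have h2 : (1 : A) ∈ I := by rw [hh]; trivial
    exact h1 h2
  obtain ⟨O, hO1, hO2⟩ := Ideal.image_subset_nonunits_valuationSubring I hI
  refine ⟨O, fun k hk => hO1 ⟨⟨k, hk⟩, ?_⟩, fun α hα => ?_⟩
  · show k - k ∈ M
    rw [sub_self]
    exact M.zero_mem
  · have h2 : mon Y α ∈ M := by
      rw [hM]
      exact Submodule.subset_span ⟨α, hα, rfl⟩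
    have h3 : mon Y α ∈ A := ⟨0, by simpa using h2⟩
    have h4 : mon Y α ∈ O.nonunits := hO2 ⟨⟨mon Y α, h3⟩, h2, rfl⟩
    exact (O.mem_nonunits_iff).mp h4

/-- elements of the field generated by `Y` and `x` are quotients of polynomials in `Y` -/
theorem mem_ratio {n : ℕ} (x : Fin n → E) (Y : Fin c → E) (u : E)
    (hu : u ∈ IntermediateField.adjoin ℂ (Set.range (Sum.elim Y x))) :
    ∃ p q : MvPolynomial (Fin c) (IntermediateField.adjoin ℂ (Set.range x)),
      u = MvPolynomial.aeval Y p / MvPolynomial.aeval Y q := by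
  have h1 : ∀ r ∈ Algebra.adjoin ℂ (Set.range (Sum.elim Y x)),
      ∃ p : MvPolynomial (Fin c) (IntermediateField.adjoin ℂ (Set.range x)),
        r = MvPolynomial.aeval Y p := by
    intro r hr
    induction hr using Algebra.adjoin_induction with
    | mem y hy =>
      obtain ⟨s, rfl⟩ := hy
      rcases s with j | l
      · exact ⟨MvPolynomial.X j, by simp⟩
      · exact ⟨MvPolynomial.C ⟨x l, IntermediateField.subset_adjoin ℂ _ ⟨l, rfl⟩⟩, by
          rw [MvPolynomial.aeval_C]; rfl⟩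
    | algebraMap a =>
      exact ⟨MvPolynomial.C (algebraMap ℂ _ a), by rw [MvPolynomial.aeval_C]; rfl⟩
    | add a b _ _ ha hb =>
      obtain ⟨p, rfl⟩ := ha
      obtain ⟨q, rfl⟩ := hb
      exact ⟨p + q, by rw [map_add]⟩
    | mul a b _ _ ha hb =>
      obtain ⟨p, rfl⟩ := ha
      obtain ⟨q, rfl⟩ := hb
      exact ⟨p * q, by rw [map_mul]⟩
  obtain ⟨r, hr, s, hs, rfl⟩ := IntermediateField.mem_adjoin_iff_div.mp hu
  obtain ⟨p, rfl⟩ := h1 r hr
  obtain ⟨q, rfl⟩ := h1 s hs
  exact ⟨p, q, rfl⟩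

/-- the valuation of a polynomial in `Y` is that of a monomial -/
theorem val_poly (K : IntermediateField ℂ E) {Y : Fin c → E} (hY : ∀ j, Y j ≠ 0)
    (O : ValuationSubring E) (lam : Fin c → ℝ) (hlam : LinearIndependent ℚ lam)
    (htriv : ∀ k ∈ K, k ≠ 0 → O.valuation k = 1)
    (hmon : ∀ α : Fin c → ℤ, 0 < ∑ j, (α j : ℝ) * lam j → O.valuation (mon Y α) < 1)
    (p : MvPolynomial (Fin c) K) (hp : p ≠ 0) :
    ∃ α : Fin c → ℤ, O.valuation (MvPolynomial.aeval Y p) = O.valuation (mon Y α) := by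
  classical
  let w : (Fin c →₀ ℕ) → ℝ := fun α => ∑ j, (α j : ℝ) * lam j
  obtain ⟨α, hα, hmin⟩ := Finset.exists_min_image p.support w (MvPolynomial.support_nonempty.mpr hp)
  let Z : (Fin c →₀ ℕ) → (Fin c → ℤ) := fun β j => (β j : ℤ)
  have hZ : ∀ β : Fin c →₀ ℕ, (∏ j, Y j ^ β j) = mon Y (Z β) := by
    intro β
    unfold mon
    refine Finset.prod_congr rfl fun j _ => ?_
    exact (zpow_natCast _ _).symm
  have hterm : ∀ β ∈ p.support,
      O.valuation (((p.coeff β : K) : E) * ∏ j, Y j ^ β j) = O.valuation (mon Y (Z β)) := by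
    intro β hβ
    rw [map_mul, htriv _ (p.coeff β).2 (by
      have := MvPolynomial.mem_support_iff.mp hβ
      simpa using this), one_mul, hZ]
  have hw : ∀ β ∈ p.support, β ≠ α → 0 < ∑ j, (((Z β - Z α) j : ℤ) : ℝ) * lam j := by
    intro β hβ hne
    have h1 : ∑ j, (((Z β - Z α) j : ℤ) : ℝ) * lam j = w β - w α := by
      show _ = ∑ j, (β j : ℝ) * lam j - ∑ j, (α j : ℝ) * lam j
      rw [← Finset.sum_sub_distrib]
      refine Finset.sum_congr rfl fun j _ => ?_
      show ((((β j : ℤ) - (α j : ℤ) : ℤ)) : ℝ) * lam j = _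
      push_cast
      ring
    have h2 := hmin β hβ
    refine lt_of_le_of_ne (by rw [h1]; linarith) fun h0 => hne ?_
    have h3 : ∑ j, (((Z β - Z α) j : ℤ) : ℚ) • lam j = 0 := by
      rw [h0]
      refine Finset.sum_congr rfl fun j _ => ?_
      rw [Rat.smul_def]
      push_cast
      rfl
    have h4 := (Fintype.linearIndependent_iff.mp hlam) _ h3
    ext j
    have h5 := h4 j
    have h6 : (((β j : ℤ) - (α j : ℤ) : ℤ) : ℚ) = 0 := h5
    have h7 : (β j : ℤ) - (α j : ℤ) = 0 := by exact_mod_cast h6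
    omega
  refine ⟨Z α, ?_⟩
  rw [MvPolynomial.aeval_def, MvPolynomial.eval₂_eq']
  have h1 : ∀ β ∈ p.support \ {α},
      O.valuation (((p.coeff β : K) : E) * ∏ j, Y j ^ β j) <
        O.valuation (((p.coeff α : K) : E) * ∏ j, Y j ^ α j) := by
    intro β hβ
    rw [Finset.mem_sdiff, Finset.mem_singleton] at hβ
    rw [hterm β hβ.1, hterm α hα]
    have h2 := hmon _ (hw β hβ.1 hβ.2)
    rw [mon_sub hY, map_div₀] at h2
    have h3 : O.valuation (mon Y (Z α)) ≠ 0 := (Valuation.ne_zero_iff _).mpr (mon_ne hY _)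
    rwa [div_lt_one₀ (zero_lt_iff.mpr h3)] at h2
  have h2 := Valuation.map_sum_eq_of_lt O.valuation hα h1
  rw [← hterm α hα, ← h2]
  rfl

end mon

theorem ends : S_ends := by
  classical
  intro n c E _ _ x y i lam hy hind halg hlam
  obtain ⟨Y, hYdef⟩ : ∃ Y : Fin c → E, Y = fun j => y (i j) := ⟨_, rfl⟩
  rw [← hYdef] at hind
  have hY : ∀ j, Y j ≠ 0 := fun j => by rw [hYdef]; exact hy _
  obtain ⟨O, hO, hmon⟩ := exists_val _ hind lam
  have htriv : ∀ k ∈ IntermediateField.adjoin ℂ (Set.range x), k ≠ 0 → O.valuation k = 1 := by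
    intro k hk hk0
    have h1 := (O.valuation_le_one_iff k).mpr (hO k hk)
    have h2 := (O.valuation_le_one_iff k⁻¹).mpr (hO _ (inv_mem hk))
    rw [map_inv₀] at h2
    have hk' : O.valuation k ≠ 0 := (Valuation.ne_zero_iff _).mpr hk0
    exact le_antisymm h1 ((inv_le_one₀ (zero_lt_iff.mpr hk')).mp h2)
  -- valuations of the elements of `ℂ(x, Y)`
  have hc : ∀ u ∈ IntermediateField.adjoin ℂ (Set.range (Sum.elim Y x)), u ≠ 0 →
      ∃ α : Fin c → ℤ, O.valuation u = O.valuation (mon Y α) := by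
    intro u hu hu0
    obtain ⟨p, q, rfl⟩ := mem_ratio x Y u hu
    have hp : p ≠ 0 := by
      rintro rfl
      exact hu0 (by simp)
    have hq : q ≠ 0 := by
      rintro rfl
      exact hu0 (by simp)
    obtain ⟨α, hα⟩ := val_poly _ hY O lam hlam htriv hmon p hp
    obtain ⟨β, hβ⟩ := val_poly _ hY O lam hlam htriv hmon q hq
    exact ⟨α - β, by rw [map_div₀, hα, hβ, mon_sub hY, map_div₀]⟩
  -- valuations of algebraic elements
  have hg : ∀ l, ∃ (N : ℕ) (q : Fin c → ℤ), 0 < N ∧
      O.valuation (y l) ^ N = O.valuation (mon Y q) := by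
    intro l
    have hal := halg l
    rw [← hYdef] at hal
    obtain ⟨p, hp, hp0⟩ := hal
    have hsum : ∑ k ∈ p.support, (p.coeff k : E) * y l ^ k = 0 := by
      rw [Polynomial.aeval_def, Polynomial.eval₂_eq_sum, Polynomial.sum] at hp0
      exact hp0
    obtain ⟨k, hk, m, hm, hkm, heq⟩ := Pool.Agent.Q151.EG.two_terms O p.support
      (fun k => (p.coeff k : E) * y l ^ k)
      (Polynomial.support_nonempty.mpr hp) (fun k hk => mul_ne_zero
        (by simpa using Polynomial.mem_support_iff.mp hk) (pow_ne_zero _ (hy l))) hsum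
    obtain ⟨qk, hqk⟩ := hc _ (p.coeff k).2 (by simpa using Polynomial.mem_support_iff.mp hk)
    obtain ⟨qm, hqm⟩ := hc _ (p.coeff m).2 (by simpa using Polynomial.mem_support_iff.mp hm)
    have hg' : O.valuation (y l) ≠ 0 := (Valuation.ne_zero_iff _).mpr (hy l)
    have hm' : O.valuation (mon Y qm) ≠ 0 := (Valuation.ne_zero_iff _).mpr (mon_ne hY _)
    refine ⟨m - k, qk - qm, by omega, ?_⟩
    simp only [map_mul, map_pow, hqk, hqm] at heq
    have e1 : O.valuation (y l) ^ m = O.valuation (y l) ^ (m - k) * O.valuation (y l) ^ k := by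
      rw [← pow_add]
      congr 1
      omega
    rw [e1, ← mul_assoc] at heq
    have h3 := mul_right_cancel₀ (pow_ne_zero _ hg') heq
    rw [mon_sub hY, map_div₀, h3, mul_comm, mul_div_assoc, div_self hm', mul_one]
  choose N q hN hq using hg
  obtain ⟨NN, hNN⟩ : ∃ NN : ℕ, NN = ∏ l, N l := ⟨_, rfl⟩
  have hNN0 : 0 < NN := by
    rw [hNN]
    exact Finset.prod_pos fun l _ => hN l
  have hdvd : ∀ l, ∃ k : ℕ, NN = N l * k := fun l => by
    rw [hNN]
    exact Finset.dvd_prod_of_mem N (Finset.mem_univ l)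
  choose k hk using hdvd
  have hyQ : ∀ l, O.valuation (y l) ^ NN = O.valuation (mon Y ((k l : ℤ) • q l)) := by
    intro l
    rw [hk l, pow_mul, hq l, mon_zsmul, map_zpow₀, zpow_natCast]
  have hx : ∀ g : MvPolynomial (Fin n) ℂ,
      MvPolynomial.aeval x g ∈ IntermediateField.adjoin ℂ (Set.range x) := by
    intro g
    induction g using MvPolynomial.induction_on with
    | C c => rw [MvPolynomial.aeval_C]; exact algebraMap_mem _ _
    | add p q hp hq => rw [map_add]; exact add_mem hp hq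
    | mul_X p i hp =>
      rw [map_mul, MvPolynomial.aeval_X]
      exact mul_mem hp (IntermediateField.subset_adjoin ℂ _ ⟨i, rfl⟩)
  subst hYdef
  exact ⟨Gen.mk x y hy O (fun g hg => htriv _ (hx g) hg) i lam hlam hmon NN hNN0
    (fun l => (k l : ℤ) • q l) hyQ halg, rfl, rfl, rfl, rfl⟩

end Pool.Agent.Q2.EL
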