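import Pool.Agent.Q72.EL.Stm
import Pool.Agent.Q98.EG.FLD

/-! Project EL (helper72), JOB FLD2: the function field of a variety over a projection of
dimension `n - c`. -/

set_option autoImplicit false
set_option linter.style.haveILetI false

namespace Pool.Agent.Q2.EL

open MvPolynomial Pool.Agent.Q72.EL Pool.Agent.W333.ECV Pool.Agent.Q98.EG

/-- transcendence degree of the field generated by `x` -/
theorem trdeg_adjoin {n : ℕ} {E : Type} [Field E] [Algebra ℂ E] (x : Fin n → E) (e : ℕ)
    (h1 : ∃ J : Finset (Fin n), J.card = e ∧ AlgebraicIndependent ℂ (fun j : J => x j))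
    (h2 : ∀ J : Finset (Fin n), J.card = e + 1 → ¬ AlgebraicIndependent ℂ (fun j : J => x j)) :
    Algebra.trdeg ℂ (IntermediateField.adjoin ℂ (Set.range x)) = (e : Cardinal) := by
  classical
  set K := IntermediateField.adjoin ℂ (Set.range x) with hK
  let x' : Fin n → K := fun i => ⟨x i, IntermediateField.subset_adjoin _ _ ⟨i, rfl⟩⟩
  have hadj : IntermediateField.adjoin ℂ (Set.range x') = ⊤ := by
    apply IntermediateField.lift_injective K
    rw [IntermediateField.lift_top, IntermediateField.lift_adjoin, ← Set.range_comp]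
    rfl
  apply le_antisymm
  · refine trdeg_le_of_dep x' hadj e fun J hJ h => h2 J hJ ?_
    exact h.map' (f := K.val) Subtype.val_injective
  · obtain ⟨J, hJ, hJi⟩ := h1
    have h3 : AlgebraicIndependent ℂ (fun j : J => x' j) := AlgebraicIndependent.of_comp K.val hJi
    refine le_trans ?_ h3.cardinalMk_le_trdeg
    rw [Cardinal.mk_coe_finset, hJ]

/-- a transcendence basis among the `y` -/
theorem exists_basis {n c : ℕ} {E : Type} [Field E] [Algebra ℂ E] {x y : Fin n → E}
    (htop : IntermediateField.adjoin ℂ (Set.range (Sum.elim x y)) = ⊤)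
    (h1 : Algebra.trdeg (IntermediateField.adjoin ℂ (Set.range x)) E = (c : Cardinal)) :
    ∃ i : Fin c → Fin n,
      AlgebraicIndependent (IntermediateField.adjoin ℂ (Set.range x)) (fun j => y (i j)) ∧
      ∀ l, IsAlgebraic (IntermediateField.adjoin ℂ
        (Set.range (Sum.elim (fun j => y (i j)) x))) (y l) := by
  classical
  set K := IntermediateField.adjoin ℂ (Set.range x) with hK
  have hadj : IntermediateField.adjoin K (Set.range y) = ⊤ := by
    have h2 : IntermediateField.restrictScalars ℂ (IntermediateField.adjoin K (Set.range y)) =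
        IntermediateField.restrictScalars ℂ (⊤ : IntermediateField K E) := by
      rw [hK, IntermediateField.adjoin_adjoin_left, ← Set.Sum.elim_range, htop]
      rfl
    exact IntermediateField.restrictScalars_injective ℂ h2
  haveI : Algebra.IsAlgebraic (Algebra.adjoin K (Set.range y)) E := by
    rw [← IntermediateField.isAlgebraic_adjoin_iff_top, hadj]
    exact ⟨fun z => isAlgebraic_algebraMap (⟨z, trivial⟩ : (⊤ : IntermediateField K E))⟩
  obtain ⟨t, ht, hb⟩ := exists_isTranscendenceBasis_subset (R := K) (A := E) (Set.range y)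
  have htf : t.Finite := (Set.finite_range y).subset ht
  choose idx hidx using fun u : t => ht u.2
  haveI : Fintype t := htf.fintype
  have hc : Fintype.card t = c := by
    have h3 := hb.cardinalMk_eq_trdeg
    rw [h1, Cardinal.mk_fintype] at h3
    exact_mod_cast h3
  let e : Fin c ≃ t := (Fintype.equivFinOfCardEq hc).symm
  have he : (fun j => y (idx (e j))) = (fun u : t => (u : E)) ∘ e := by
    funext j
    exact hidx (e j)
  have hb2 : IsTranscendenceBasis K (fun j => y (idx (e j))) := by
    rw [he]
    exact hb.comp_equiv e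
  refine ⟨fun j => idx (e j), hb2.1, fun l => ?_⟩
  have h2 := hb2.isAlgebraic_field.isAlgebraic (y l)
  have h3 : IsAlgebraic (IntermediateField.restrictScalars ℂ
      (IntermediateField.adjoin K (Set.range fun j => y (idx (e j))))) (y l) := h2
  rw [hK, IntermediateField.adjoin_adjoin_left] at h3
  rw [Set.Sum.elim_range, Set.union_comm]
  exact h3

theorem fld : S_fld := by
  classical
  intro n c I V hV hdim hcn hproj
  obtain ⟨hI, hVeq, hne⟩ := hV
  obtain ⟨E, iE, aE, ξ, hξ, hgen⟩ := exists_field I hI
  set x : Fin n → E := fun i => ξ (Sum.inl i) with hx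
  set y : Fin n → E := fun i => ξ (Sum.inr i) with hy
  have hxy : Sum.elim x y = ξ := by
    funext i
    rcases i with i | i <;> rfl
  have hVmem : ∀ p : Fin n ⊕ Fin n → ℂ, p ∈ V ↔
      (∀ f ∈ I, eval p f = 0) ∧ ∀ j : Fin n, p (Sum.inr j) ≠ 0 := by
    intro p; rw [hVeq]; rfl
  obtain ⟨p0, hp0⟩ := hne
  have hPV : ∀ f, f ∈ I ↔ ∀ p ∈ V, eval p f = 0 := by
    intro f
    constructor
    · intro hf p hp
      exact ((hVmem p).mp hp).1 f hf
    · intro hf
      refine nullst I hI (∏ i : Fin n, X (Sum.inr i)) ?_ f ?_
      · intro hg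
        have := ((hVmem p0).mp hp0).1 _ hg
        rw [map_prod, Finset.prod_eq_zero_iff] at this
        obtain ⟨i, -, hi⟩ := this
        rw [eval_X] at hi
        exact ((hVmem p0).mp hp0).2 i hi
      · intro p hp hg
        apply hf
        rw [hVmem]
        refine ⟨hp, fun j hj => hg ?_⟩
        rw [map_prod]
        apply Finset.prod_eq_zero (Finset.mem_univ j)
        rw [eval_X]; exact hj
  have ha : ∀ f, aeval (Sum.elim x y) f = 0 ↔ ∀ p ∈ V, eval p f = 0 := by
    intro f
    rw [hxy]
    exact (hξ f).trans (hPV f)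
  have hax : ∀ g : MvPolynomial (Fin n) ℂ,
      aeval x g = 0 ↔ ∀ p ∈ V, eval (fun l => p (Sum.inl l)) g = 0 := by
    intro g
    have h1 : aeval x g = aeval (Sum.elim x y) (rename Sum.inl g) := by
      rw [aeval_rename, Sum.elim_comp_inl]
    rw [h1, ha]
    refine forall₂_congr fun p _ => ?_
    rw [eval_rename]
    rfl
  have hyn : ∀ l, y l ≠ 0 := by
    intro l h
    have h1 := (ha (X (Sum.inr l))).mp (by rw [aeval_X]; exact h) p0 hp0
    rw [eval_X] at h1
    exact ((hVmem p0).mp hp0).2 l h1
  have htop : IntermediateField.adjoin ℂ (Set.range (Sum.elim x y)) = ⊤ := by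
    rw [eq_top_iff]
    intro u _
    have hmem : ∀ f : MvPolynomial (Fin n ⊕ Fin n) ℂ,
        aeval ξ f ∈ IntermediateField.adjoin ℂ (Set.range (Sum.elim x y)) := by
      intro f
      rw [hxy]
      induction f using MvPolynomial.induction_on with
      | C a => rw [aeval_C]; exact IntermediateField.algebraMap_mem _ _
      | add p q hp hq => rw [map_add]; exact add_mem hp hq
      | mul_X p i hp =>
        rw [map_mul, aeval_X]
        exact mul_mem hp (IntermediateField.subset_adjoin _ _ ⟨i, rfl⟩)
    obtain ⟨f, g, hg, hu⟩ := hgen u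
    rw [eq_div_of_mul_eq hg hu]
    exact div_mem (hmem f) (hmem g)
  have hind : ∀ J : Finset (Fin n ⊕ Fin n), Pool.Agent.Q72.EG.IndepV V J ↔
      AlgebraicIndependent ℂ (fun j : J => Sum.elim x y j) := by
    intro J
    constructor
    · intro h
      rw [algebraicIndependent_iff]
      intro f hf
      have h1 : rename (Subtype.val : J → Fin n ⊕ Fin n) f = 0 := by
        apply h
        · intro k hk
          obtain ⟨b, -, rfl⟩ := Finset.mem_image.mp (vars_rename Subtype.val f hk)
          exact b.2
        · rw [← ha, aeval_rename]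
          exact hf
      exact rename_injective _ Subtype.val_injective (by rw [h1, map_zero])
    · intro h f hfv hf
      rw [← ha] at hf
      rw [algebraicIndependent_iff] at h
      obtain ⟨g, hg⟩ := exists_rename_eq_of_vars_subset_range f (Subtype.val : J → Fin n ⊕ Fin n)
        Subtype.val_injective (by
          rw [Subtype.range_coe]
          exact_mod_cast hfv)
      have h1 : g = 0 := by
        apply h
        rw [← hg, aeval_rename] at hf
        exact hf
      rw [← hg, h1, map_zero]
  have hindx : ∀ J : Finset (Fin n), (∀ f : MvPolynomial (Fin n) ℂ, f.vars ⊆ J →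
      (∀ p ∈ V, eval (fun l => p (Sum.inl l)) f = 0) → f = 0) ↔
      AlgebraicIndependent ℂ (fun j : J => x j) := by
    intro J
    constructor
    · intro h
      rw [algebraicIndependent_iff]
      intro f hf
      have h1 : rename (Subtype.val : J → Fin n) f = 0 := by
        apply h
        · intro k hk
          obtain ⟨b, -, rfl⟩ := Finset.mem_image.mp (vars_rename Subtype.val f hk)
          exact b.2
        · rw [← hax, aeval_rename]
          exact hf
      exact rename_injective _ Subtype.val_injective (by rw [h1, map_zero])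
    · intro h f hfv hf
      rw [← hax] at hf
      rw [algebraicIndependent_iff] at h
      obtain ⟨g, hg⟩ := exists_rename_eq_of_vars_subset_range f (Subtype.val : J → Fin n)
        Subtype.val_injective (by
          rw [Subtype.range_coe]
          exact_mod_cast hfv)
      have h1 : g = 0 := by
        apply h
        rw [← hg, aeval_rename] at hf
        exact hf
      rw [← hg, h1, map_zero]
  obtain ⟨⟨J, hJc, hJ⟩, hdim2⟩ := hdim
  have hEn : Algebra.trdeg ℂ E = (n : Cardinal) := by
    apply le_antisymm
    · exact trdeg_le_of_dep (Sum.elim x y) htop n fun J hJ h => hdim2 J hJ ((hind J).mpr h)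
    · refine le_trans ?_ ((hind J).mp hJ).cardinalMk_le_trdeg
      rw [Cardinal.mk_coe_finset, hJc]
  obtain ⟨⟨Jx, hJxc, hJx⟩, hproj2⟩ := hproj
  have hK : Algebra.trdeg ℂ (IntermediateField.adjoin ℂ (Set.range x)) =
      ((n - c : ℕ) : Cardinal) := by
    refine trdeg_adjoin x (n - c) ⟨Jx, hJxc, (hindx Jx).mp hJx⟩ fun J hJ h => ?_
    obtain ⟨f, hf1, hf2, hf3⟩ := hproj2 J hJ
    exact hf3 ((hindx J).mpr h f hf1 hf2)
  have hEK : Algebra.trdeg (IntermediateField.adjoin ℂ (Set.range x)) E = (c : Cardinal) := by
    have h3 := trdeg_add_eq (A := E) ℂ (IntermediateField.adjoin ℂ (Set.range x))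
    rw [hK, hEn] at h3
    have h4 : Algebra.trdeg (IntermediateField.adjoin ℂ (Set.range x)) E < Cardinal.aleph0 := by
      refine lt_of_le_of_lt ?_ (Cardinal.natCast_lt_aleph0 (n := n))
      rw [← h3]
      exact self_le_add_left _ _
    obtain ⟨r, hr⟩ := Cardinal.lt_aleph0.mp h4
    rw [hr] at h3 ⊢
    have h5 : (n - c) + r = n := by exact_mod_cast h3
    have h6 : r = c := by omega
    rw [h6]
  obtain ⟨i, hi1, hi2⟩ := exists_basis htop hEK
  refine ⟨E, iE, aE, x, y, i, ha, ?_, hyn, hi1, hi2, ?_⟩
  · intro p
    rw [hVmem]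
    refine and_congr_left fun _ => ?_
    constructor
    · intro h g hg
      rw [hxy, hξ] at hg
      exact h g hg
    · intro h f hf
      apply h
      rw [hxy, hξ]
      exact hf
  · set K := IntermediateField.adjoin ℂ (Set.range x) with hKdef
    let x' : Fin n → K := fun i => ⟨x i, IntermediateField.subset_adjoin _ _ ⟨i, rfl⟩⟩
    have h1 : RingHom.ker (aeval x : MvPolynomial (Fin n) ℂ →ₐ[ℂ] E) =
        RingHom.ker (aeval x' : MvPolynomial (Fin n) ℂ →ₐ[ℂ] K) := by
      ext g
      rw [RingHom.mem_ker, RingHom.mem_ker]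
      have h3 : K.val (aeval x' g) = aeval (fun k => K.val (x' k)) g :=
        MvPolynomial.comp_aeval_apply _ K.val g
      have h4 : K.val (aeval x' g) = aeval x g := h3
      rw [← h4]
      exact map_eq_zero_iff K.val Subtype.val_injective
    rw [h1]
    have h2 := trdeg_le_of_injective
      (Ideal.kerLiftAlg (aeval x' : MvPolynomial (Fin n) ℂ →ₐ[ℂ] K))
      (Ideal.kerLiftAlg_injective _)
    rw [hK] at h2
    refine (add_le_add_left h2 _).trans ?_
    have h5 : n - c + c = n := by omega
    exact_mod_cast h5.le

end Pool.Agent.Q2.EL
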